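import Pool.Agent.Run7.h994.MC.Stm
import Pool.Agent.W70.HR.Wt

/-!
# Project MC (helper994), piece MTT (helper304): the Maynard-Tao theorem in a set `T`

Adapted from `Pool/Agent/W70/HR/WtA.lean` and `Pool/Agent/W70/HR/Wt.lean`.
-/

set_option autoImplicit false

open Finset

namespace Pool.Agent.Run7.h304.MC

open Pool.Agent.H361R2.PP
open Pool.Agent.W70.HR (Bw rU Om OmP xh qh Fam vp ww ZB ww_nonneg rU_nonneg mem_Bw1 sumq WW_bound S_PT)
open Pool.Agent.H410R2.AC (wt GG cfg term WW pos Inj coef)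
open Run7.h994.MC (EI EP S_SMT S_PAR1 S_MTT)

/-- the standing situation for one class `b`, one set `T` and one set `B` of `N` positions -/
structure Wq {t : ℕ} (Λ δ s η γ κ : ℝ) (X b N : ℕ) (T B : Finset ℕ) (β : Fin t → ℝ)
    (S : Fin t → Finset (Finset ℕ)) : Prop where
  m1 : |∑ n ∈ (SI X b).filter (fun n => n ∈ T), rU δ X B n * WW B (fun _ => 1) (xh γ β S n) ^ 2 -
      κ * Om δ X B.card * ∑ σ ∈ cfg t B, (fun _ => (1 : ℝ)) σ ^ 2 * term (qh γ β S) σ| ≤ s * (κ * Om δ X B.card)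
  m2 : ∀ a ∈ B, ∀ c : (Fin t → Option ℕ) → ℝ, (∀ σ, |c σ| ≤ (1 + γ) ^ 2) →
    |∑ n ∈ (SP X b a).filter (fun n => n ∈ T), rU δ X (B.erase a) n * WW (B.erase a) c (xh γ β S n) ^ 2 -
      κ * OmP δ X (B.erase a).card * ∑ σ ∈ cfg t (B.erase a), c σ ^ 2 * term (qh γ β S) σ| ≤
        s * (κ * OmP δ X (B.erase a).card)
  card : B.card = N
  sub : B ⊆ Bw Λ X b
  κ0 : 0 < κ
  s0 : 0 ≤ s
  γ0 : 0 ≤ γ
  β0 : ∀ τ, 0 ≤ β τ
  β1 : ∑ τ, β τ = 1
  gg : ∀ τ, 1 ≤ GG (S τ)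
  hS : ∀ τ, ∀ R ∈ S τ, R ⊆ P2 (JJ δ X) X
  η0 : 0 ≤ η
  hη : ∀ τ, (N : ℝ) * (γ ^ 2 * (β τ ^ 2 / GG (S τ))) ≤ η
  hq : ∑ τ, γ ^ 2 * (β τ ^ 2 / GG (S τ)) ≤ η
  pJ : 2 ^ 2 ^ JJ δ X ≤ X
  v0 : 0 < VV δ X
  hX : 1 ≤ X

section

variable {t : ℕ} {Λ δ s η γ κ : ℝ} {X b N : ℕ} {T B : Finset ℕ} {β : Fin t → ℝ} {S : Fin t → Finset (Finset ℕ)}

theorem xh_prime (h : Wq Λ δ s η γ κ X b N T B β S) {n a : ℕ} (hn : X ≤ n) (ha : 1 ≤ a)
    (hp : (n + a).Prime) (τ : Fin t) : xh γ β S n τ a = γ * β τ := by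
  unfold xh
  rw [FS_prime (P2_lt hn ha) (h.hS τ) hp]
  have h1 := h.gg τ
  have : GG (S τ) ≠ 0 := by linarith
  field_simp

theorem rU_erase (h : Wq Λ δ s η γ κ X b N T B β S) {U : Finset ℕ} {n a : ℕ} (ha : a ∈ U)
    (hn : X ≤ n) (ha1 : 1 ≤ a) (hp : (n + a).Prime) : rU δ X U n = rU δ X (U.erase a) n := by
  unfold rU
  rw [← mul_prod_erase U _ ha, rg_prime (P1_lt h.pJ hn ha1) hp, one_mul]

theorem qh_nonneg (h : Wq Λ δ s η γ κ X b N T B β S) (τ : Fin t) (a : ℕ) : 0 ≤ qh γ β S τ a := by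
  unfold qh
  have := h.gg τ
  positivity

theorem termq_nonneg (h : Wq Λ δ s η γ κ X b N T B β S) (σ : Fin t → Option ℕ) :
    0 ≤ term (qh γ β S) σ := by
  unfold term
  refine prod_nonneg fun τ _ => ?_
  cases σ τ with
  | none => exact zero_le_one
  | some a => exact qh_nonneg h τ a

theorem OmP_nonneg (h : Wq Λ δ s η γ κ X b N T B β S) (m : ℕ) : 0 ≤ OmP δ X m := by
  unfold OmP
  exact mul_nonneg (Om'_nonneg X) (pow_nonneg h.v0.le _)

theorem Om_pos (h : Wq Λ δ s η γ κ X b N T B β S) (m : ℕ) : 0 < Om δ X m := by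
  unfold Om
  have h1 : (0 : ℝ) < X := by exact_mod_cast h.hX
  have h2 : (0 : ℝ) < Wm X := by exact_mod_cast Pool.Agent.H361R2.PP.Wm_pos X
  exact mul_pos (div_pos h1 h2) (pow_pos h.v0 _)

theorem OmP_eq (h : Wq Λ δ s η γ κ X b N T B β S) (m : ℕ) :
    OmP δ X m = vp δ X * Om δ X (m + 1) := by
  have h1 : (0 : ℝ) < X := by exact_mod_cast h.hX
  have h2 : (0 : ℝ) < Wm X := by exact_mod_cast Pool.Agent.H361R2.PP.Wm_pos X
  have h3 := h.v0
  unfold OmP vp Om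
  rw [pow_succ]
  field_simp

theorem mni_of (hMni : Mni) (h : Wq Λ δ s η γ κ X b N T B β S) :
    1 ≤ ZB γ β S B ∧ ∀ B' ⊆ B,
    ∑ σ ∈ cfg t B', coef β σ * term (qh γ β S) σ ≤ η * ZB γ β S B ∧
    ∑ σ ∈ cfg t B', term (qh γ β S) σ ≤ ZB γ β S B ∧
    (1 - ∑ τ, ∑ a ∈ B \ B', qh γ β S τ a) * ZB γ β S B ≤
      ∑ σ ∈ cfg t B', term (qh γ β S) σ := by
  obtain ⟨h1, -, h2⟩ := hMni t B β (qh γ β S) η h.η0 h.β0 h.β1 (fun τ a => qh_nonneg h τ a)
    (fun τ => by rw [sumq, h.card]; exact h.hη τ)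
  refine ⟨h1, fun B' hB' => ?_⟩
  obtain ⟨h3, -, h4, h5⟩ := h2 B' hB'
  exact ⟨h3, h4, h5⟩

/-- total mass of the weights -/
theorem W1 (hMni : Mni) (h : Wq Λ δ s η γ κ X b N T B β S) :
    ∑ n ∈ (SI X b).filter (fun n => n ∈ T), ww δ γ X β S B n ≤ (1 + s) * (κ * Om δ X N * ZB γ β S B) := by
  have h1 := h.m1
  rw [h.card] at h1
  have hZ := (mni_of hMni h).1
  have h2 := (abs_le.1 h1).2
  have h3 : ∑ σ ∈ cfg t B, (fun _ => (1 : ℝ)) σ ^ 2 * term (qh γ β S) σ = ZB γ β S B := by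
    unfold ZB
    refine sum_congr rfl fun σ _ => by ring
  rw [h3] at h2
  have h4 : 0 < κ * Om δ X N := mul_pos h.κ0 (Om_pos h N)
  have h5 : s * (κ * Om δ X N) ≤ s * (κ * Om δ X N * ZB γ β S B) := by
    apply mul_le_mul_of_nonneg_left _ h.s0
    nlinarith
  unfold ww
  linarith

/-- sums over primes -/
theorem W2 (hCol : Col) (hCob : Cob) (hMni : Mni) (h : Wq Λ δ s η γ κ X b N T B β S) {a : ℕ} (ha : a ∈ B) :
    (1 - 3 * η - s) * (vp δ X * (1 + γ) ^ 2 * (κ * Om δ X N * ZB γ β S B)) ≤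
      ∑ n ∈ (SP X b a).filter (fun n => n ∈ T), ww δ γ X β S B n := by
  have ha1 : 1 ≤ a := mem_Bw1 (h.sub ha)
  have hc := h.γ0
  have hs := h.s0
  have hcoll : ∀ n ∈ (SP X b a).filter (fun n => n ∈ T), ww δ γ X β S B n =
      rU δ X (B.erase a) n * WW (B.erase a) (co1 γ β) (xh γ β S n) ^ 2 := by
    intro n hn
    have hn := (mem_filter.1 hn).1
    rw [mem_SP] at hn
    unfold ww
    rw [(hCol t B β (xh γ β S n) (fun _ => γ)).1 a ha
      (fun τ => xh_prime h hn.1 ha1 hn.2.2.2 τ), rU_erase h ha hn.1 ha1 hn.2.2.2]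
  rw [sum_congr rfl hcoll]
  have hcob := (hCob t β h.β0 h.β1)
  have hc0 : ∀ σ, |co1 γ β σ| ≤ (1 + γ) ^ 2 := by
    intro σ
    obtain ⟨-, h1, h2, -, -⟩ := hcob.2 γ hc σ
    rw [abs_of_nonneg h1]
    nlinarith
  have hcard : (B.erase a).card + 1 = N := by
    rw [card_erase_of_mem ha, ← h.card]
    have : 0 < B.card := card_pos.2 ⟨a, ha⟩
    omega
  have h3 := h.m2 a ha (co1 γ β) hc0
  set Ω := κ * OmP δ X (B.erase a).card with hΩ
  have hΩ0 : 0 ≤ Ω := mul_nonneg h.κ0.le (OmP_nonneg h _)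
  have hΩe : Ω = vp δ X * (κ * Om δ X N) := by rw [hΩ, OmP_eq h, hcard]; ring
  obtain ⟨hM1, hM⟩ := mni_of hMni h
  obtain ⟨hm1, hm3, hm4⟩ := hM (B.erase a) (erase_subset _ _)
  set M := ZB γ β S B with hMdef
  set M' := ∑ σ ∈ cfg t (B.erase a), term (qh γ β S) σ with hM'def
  have hsd : B \ B.erase a = {a} := by
    ext x
    simp only [mem_sdiff, mem_erase, mem_singleton]
    constructor
    · rintro ⟨h1, h2⟩
      by_contra h3
      exact h2 ⟨h3, h1⟩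
    · rintro rfl
      exact ⟨ha, fun h => h.1 rfl⟩
  rw [hsd] at hm4
  simp only [sum_singleton] at hm4
  have hMq : ∑ τ, qh γ β S τ a ≤ η := h.hq
  have hη := h.η0
  have hM'1 : (1 - η) * M ≤ M' := by
    refine le_trans ?_ hm4
    apply mul_le_mul_of_nonneg_right _ (by linarith)
    linarith
  set Z' := ∑ σ ∈ cfg t (B.erase a), co1 γ β σ ^ 2 * term (qh γ β S) σ with hZ'
  have hlow : (1 + γ) ^ 2 * M' - 2 * γ * (1 + γ) * (η * M) ≤ Z' := by
    calc (1 + γ) ^ 2 * M' - 2 * γ * (1 + γ) * (η * M) ≤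
        (1 + γ) ^ 2 * M' - 2 * γ * (1 + γ) *
          ∑ σ ∈ cfg t (B.erase a), coef β σ * term (qh γ β S) σ := by
          have := mul_le_mul_of_nonneg_left hm1 (by positivity : 0 ≤ 2 * γ * (1 + γ))
          linarith
      _ = ∑ σ ∈ cfg t (B.erase a), ((1 + γ) ^ 2 - 2 * γ * (1 + γ) * coef β σ) *
            term (qh γ β S) σ := by
          rw [hM'def, mul_sum, mul_sum, ← sum_sub_distrib]
          refine sum_congr rfl fun σ _ => ?_
          ring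
      _ ≤ _ := by
          refine sum_le_sum fun σ _ => ?_
          obtain ⟨h1, -, -, -, -⟩ := hcob.2 γ hc σ
          exact mul_le_mul_of_nonneg_right h1 (termq_nonneg h σ)
  have hM0 : 0 ≤ M := by linarith
  have h1c : (1 : ℝ) ≤ (1 + γ) ^ 2 := by nlinarith
  have hsM : s ≤ s * ((1 + γ) ^ 2 * M) := by
    have : (1 : ℝ) ≤ (1 + γ) ^ 2 * M := by nlinarith
    nlinarith
  have h4 := abs_le.1 h3
  have hre : vp δ X * (1 + γ) ^ 2 * (κ * Om δ X N * M) = Ω * ((1 + γ) ^ 2 * M) := by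
    rw [hΩe]; ring
  rw [hre]
  have h5 : (1 - 3 * η - s) * ((1 + γ) ^ 2 * M) ≤ Z' - s := by
    have h6 : (1 + γ) ^ 2 * ((1 - η) * M) ≤ (1 + γ) ^ 2 * M' :=
      mul_le_mul_of_nonneg_left hM'1 (by positivity)
    have h7 : 2 * γ * (1 + γ) * (η * M) ≤ 2 * (1 + γ) ^ 2 * (η * M) := by
      apply mul_le_mul_of_nonneg_right _ (by positivity)
      nlinarith
    nlinarith
  have h6 := mul_le_mul_of_nonneg_left h5 hΩ0
  rw [mul_sub] at h6
  have h7 : (1 - 3 * η - s) * (Ω * ((1 + γ) ^ 2 * M)) =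
    Ω * ((1 - 3 * η - s) * ((1 + γ) ^ 2 * M)) := by ring
  rw [h7]
  linarith [h4.1]

end

theorem rU_eq_one_or (δ : ℝ) (X : ℕ) (B : Finset ℕ) (n : ℕ) :
    (∀ a ∈ B, rg (P1 (HH X) (JJ δ X)) a n = 1) ∧ rU δ X B n = 1 ∨ rU δ X B n = 0 := by
  by_cases h : ∀ a ∈ B, rg (P1 (HH X) (JJ δ X)) a n = 1
  · left
    exact ⟨h, by unfold rU; exact prod_eq_one h⟩
  · right
    push Not at h
    obtain ⟨a, ha, h1⟩ := h
    unfold rU
    refine prod_eq_zero ha ?_
    unfold rg at h1 ⊢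
    split_ifs at h1 ⊢ with h2
    · exact absurd rfl h1
    · rfl

/-- MC-MTT -/
theorem MTT (hSM : S_SMT) (hPAR : S_PAR1) (hPT : S_PT) (hCol : Col) (hCob : Cob)
    (hMni : Mni) (hWtx : Wtx) : S_MTT := by
  classical
  intro m lv hlv0 hlv1
  have hσ0 : (0 : ℝ) < 1 / 16 := by norm_num
  obtain ⟨t, K, u, β, hK, hub, hβ1, hu, δa, hδa, hpar⟩ := hPAR (2 * m + 2) (1 / 16) lv (by positivity) hσ0 hlv0 hlv1
  refine ⟨K, hK, fun Λ hΛ => ?_⟩
  obtain ⟨K', A', δb, hδb, hsm⟩ := hSM K 2 t u β Λ lv (1 / 16) hub hβ1 hu hΛ hlv0 (by linarith) hσ0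
  obtain ⟨δ, hδ⟩ : ∃ δ : ℝ, δ = min (min δa δb) (1 / 8) := ⟨_, rfl⟩
  have hδ0 : 0 < δ := by rw [hδ]; positivity
  have h1 : δ ≤ δa := by rw [hδ]; exact (min_le_left _ _).trans (min_le_left _ _)
  have h2 : δ ≤ δb := by rw [hδ]; exact (min_le_left _ _).trans (min_le_right _ _)
  have h4 : δ ≤ 1 / 8 := by rw [hδ]; exact min_le_right _ _
  obtain ⟨Xa, hpar⟩ := hpar δ hδ0 h1
  obtain ⟨Xb, hsm⟩ := hsm δ hδ0 h2
  obtain ⟨M₁, hM₁, Xd, hpt⟩ := hPT Λ δ hΛ hδ0 h4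
  obtain ⟨Xe, hwtx⟩ := hWtx.2 δ hδ0 (by linarith)
  set Q : ℝ := 1 + (1 / δ) ^ 2 * M₁ with hQ
  have hQ1 : 1 ≤ Q := by
    rw [hQ]
    have : 0 ≤ (1 / δ) ^ 2 * M₁ := by positivity
    linarith
  set M₀ : ℝ := (((K : ℝ) + 1) ^ t * Q ^ t) ^ 2 with hM₀
  have hM₀0 : 0 < M₀ := by positivity
  have hK0 : (0 : ℝ) < K := by exact_mod_cast hK
  refine ⟨δ, 1 / (K * M₀), K', A', max (max Xa Xb) (max Xd (max Xe 1)), hδ0, h4, by positivity, ?_⟩
  intro X hX
  have hXa : Xa ≤ X := ((le_max_left _ _).trans (le_max_left _ _)).trans hX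
  have hXb : Xb ≤ X := ((le_max_right _ _).trans (le_max_left _ _)).trans hX
  have hXd : Xd ≤ X := ((le_max_left _ _).trans (le_max_right _ _)).trans hX
  have hXe : Xe ≤ X := ((le_max_left _ _).trans ((le_max_right _ _).trans (le_max_right _ _))).trans hX
  have hX1 : 1 ≤ X := ((le_max_right _ _).trans ((le_max_right _ _).trans (le_max_right _ _))).trans hX
  obtain ⟨S, γ, hFam, hS0, hSd, hSG, hγ0, hγ1, hV, hvp, hγμ, hη, hq⟩ := hpar X hXa
  refine ⟨hV, fun b hb T κ hκ hEI B hBs hB hEP => ?_⟩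
  have hPJ : 2 ^ 2 ^ JJ δ X ≤ X := by
    have h5 := (hwtx X hXe).1
    have h6 : (X : ℝ) ^ δ ≤ (X : ℝ) ^ (1 : ℝ) := by
      apply Real.rpow_le_rpow_of_exponent_le _ (by linarith)
      exact_mod_cast hX1
    rw [Real.rpow_one] at h6
    have h7 := h5.trans h6
    exact_mod_cast h7
  have hsmX := hsm X hXb b hb T κ hκ hEI S hFam hS0 hSd hSG γ hγ0 hγ1
  have hst : Wq Λ δ (1 / 16) (1 / 16) γ κ X b K T B β S :=
    { m1 := (hsmX B hBs hB.le B subset_rfl (fun _ => 1) (fun σ => by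
        rw [abs_one]; nlinarith)).1
      m2 := fun a ha c hc => (hsmX (B.erase a) ((erase_subset _ _).trans hBs)
        ((card_le_card (erase_subset _ _)).trans hB.le) (B.erase a) subset_rfl c hc).2 a
        (by rw [mem_sdiff]; exact ⟨hBs ha, notMem_erase a B⟩) (hEP a ha)
      card := hB
      sub := hBs
      κ0 := hκ
      s0 := hσ0.le
      γ0 := hγ0
      β0 := fun τ => (hub τ).2.le
      β1 := hβ1
      gg := hSG
      hS := fun τ R hR => (hFam τ R hR).1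
      η0 := hσ0.le
      hη := hη
      hq := hq
      pJ := hPJ
      v0 := hV
      hX := hX1 }
  have hZ := (mni_of hMni hst).1
  have hOm := Om_pos hst K
  set A : ℝ := κ * Om δ X K * ZB γ β S B with hA
  have hA0 : 0 < A := by rw [hA]; positivity
  have hAOm : κ * Om δ X K ≤ A := by
    rw [hA]
    exact le_mul_of_one_le_right (by positivity) hZ
  set Ω : Finset ℕ := (SI X b).filter (fun n => n ∈ T) with hΩ
  set w : ℕ → ℝ := ww δ γ X β S B with hw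
  have hw0 : ∀ n, 0 ≤ w n := fun n => ww_nonneg B n
  -- upper bound of the weights
  have hwM : ∀ n ∈ Ω, w n ≤ M₀ * rU δ X B n := by
    intro n hn
    have hn := (mem_filter.1 hn).1
    have hW : |WW B (fun _ => 1) (xh γ β S n)| ≤ ((K : ℝ) + 1) ^ t * Q ^ t := by
      have := WW_bound (t := t) (B := B) (x := xh γ β S n) hQ1 (by
        intro τ a ha
        have ha' := hBs ha
        have haΛ : (a : ℝ) ≤ Λ * Real.log X := by
          have h5 : a ≤ ⌊Λ * Real.log X⌋₊ := (mem_BB.1 ha').2.1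
          have h6 : 0 ≤ Λ * Real.log X := by
            have : 0 ≤ Real.log X := Real.log_nonneg (by exact_mod_cast hX1)
            positivity
          exact (Nat.le_floor_iff h6).1 h5
        have h5 := hpt X hXd b n a hn (mem_Bw1 ha') haΛ (S τ) (fun R hR => (hFam τ R hR).1)
        unfold xh
        have hg := hSG τ
        have hβ := hub τ
        have hβ1' : β τ ≤ 1 := by
          rw [← hβ1]
          exact single_le_sum (f := β) (fun τ _ => (hub τ).2.le) (mem_univ τ)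
        have hbg : 0 ≤ β τ / GG (S τ) := div_nonneg hβ.2.le (by linarith)
        rw [abs_mul, abs_mul, abs_of_nonneg hγ0, abs_of_nonneg hbg]
        have h6 : β τ / GG (S τ) ≤ 1 := by
          rw [div_le_one (by linarith)]
          linarith
        have h7 : γ ≤ (1 / δ) ^ 2 := by linarith
        have h8 : β τ / GG (S τ) * |FS (S τ) a n| ≤ M₁ := by
          calc β τ / GG (S τ) * |FS (S τ) a n| ≤ 1 * M₁ := by
                apply mul_le_mul h6 h5 (abs_nonneg _) zero_le_one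
            _ = M₁ := one_mul _
        calc γ * (β τ / GG (S τ) * |FS (S τ) a n|) ≤ (1 / δ) ^ 2 * M₁ := by
              apply mul_le_mul h7 h8 _ (by positivity)
              exact mul_nonneg hbg (abs_nonneg _)
          _ ≤ Q := by rw [hQ]; linarith)
      rw [hB] at this
      exact this
    rw [hw]
    show rU δ X B n * _ ≤ _
    rw [mul_comm]
    apply mul_le_mul_of_nonneg_right _ (rU_nonneg B n)
    rw [hM₀, ← sq_abs]
    exact pow_le_pow_left₀ (abs_nonneg _) hW 2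
  have e1 : ∑ n ∈ Ω, w n ≤ (1 + 1 / 16) * A := W1 hMni hst
  have e2 : ∀ a ∈ B, (1 - 4 * (1 / 16)) * ((2 * m + 2) / K) * A ≤ ∑ n ∈ Ω.filter (fun n => (n + a).Prime), w n := by
    intro a ha
    have h5 := W2 hCol hCob hMni hst ha
    rw [hγμ] at h5
    have h6 : (SP X b a).filter (fun n => n ∈ T) = Ω.filter (fun n => (n + a).Prime) := by
      rw [SP_eq, hΩ]
      exact filter_comm _ _ _
    rw [h6] at h5
    refine le_trans (le_of_eq ?_) h5
    rw [hA]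
    ring
  -- counting
  set cn : ℕ → ℕ := fun n => (B.filter (fun a => (n + a).Prime)).card with hcn
  have e3 : (1 - 4 * (1 / 16)) * (2 * m + 2) * A ≤ ∑ n ∈ Ω, w n * cn n := by
    calc (1 - 4 * (1 / 16)) * (2 * m + 2) * A = ∑ a ∈ B, (1 - 4 * (1 / 16)) * ((2 * m + 2) / K) * A := by
          rw [sum_const, hB, nsmul_eq_mul]
          field_simp
      _ ≤ ∑ a ∈ B, ∑ n ∈ Ω.filter (fun n => (n + a).Prime), w n := sum_le_sum e2
      _ = ∑ n ∈ Ω, w n * cn n := by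
          simp_rw [sum_filter]
          rw [sum_comm]
          refine sum_congr rfl fun n _ => ?_
          rw [← sum_filter, sum_const, nsmul_eq_mul, mul_comm]
  set Ω₁ : Finset ℕ := Ω.filter (fun n => m ≤ cn n) with hΩ₁
  have e4 : ∑ n ∈ Ω, w n * cn n ≤ m * ∑ n ∈ Ω, w n + K * ∑ n ∈ Ω₁, w n := by
    have h9 : ∑ n ∈ Ω₁, w n = ∑ n ∈ Ω, if m ≤ cn n then w n else 0 := by rw [hΩ₁, sum_filter]
    rw [h9, mul_sum, mul_sum, ← sum_add_distrib]
    refine sum_le_sum fun n _ => ?_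
    have h5 : (cn n : ℝ) ≤ K := by
      rw [← hB]
      exact_mod_cast card_filter_le _ _
    have h6 := hw0 n
    split_ifs with h7
    · have h8 : (0 : ℝ) ≤ m * w n := mul_nonneg (Nat.cast_nonneg m) h6
      have h10 : w n * (cn n : ℝ) ≤ w n * K := mul_le_mul_of_nonneg_left h5 h6
      linarith [mul_comm (w n) (K : ℝ)]
    · push Not at h7
      have h8 : (cn n : ℝ) ≤ m := by exact_mod_cast h7.le
      have h10 : w n * (cn n : ℝ) ≤ w n * m := mul_le_mul_of_nonneg_left h8 h6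
      linarith [mul_comm (w n) (m : ℝ)]
  have e5 : A ≤ K * ∑ n ∈ Ω₁, w n := by
    have h5 : (m : ℝ) * ∑ n ∈ Ω, w n ≤ m * ((1 + 1 / 16) * A) :=
      mul_le_mul_of_nonneg_left e1 (Nat.cast_nonneg m)
    have h6 : (0 : ℝ) ≤ m * A := mul_nonneg (Nat.cast_nonneg m) hA0.le
    have h7 : (1 - 4 * (1 / 16)) * (2 * m + 2) * A = 3 / 2 * (m * A) + 3 / 2 * A := by ring
    have h8 : (m : ℝ) * ((1 + 1 / 16) * A) = 17 / 16 * (m * A) := by ring
    linarith
  have e6 : ∑ n ∈ Ω₁, w n ≤ M₀ * (#(Ω.filter (fun n =>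
      (∀ a ∈ B, rg (P1 (HH X) (JJ δ X)) a n = 1) ∧ m ≤ #(B.filter (fun a => (n + a).Prime)))) : ℝ) := by
    calc ∑ n ∈ Ω₁, w n ≤ ∑ n ∈ Ω₁, M₀ * rU δ X B n := sum_le_sum fun n hn => hwM n (mem_filter.1 hn).1
      _ ≤ ∑ n ∈ Ω₁, (if ∀ a ∈ B, rg (P1 (HH X) (JJ δ X)) a n = 1 then M₀ else 0) := by
          refine sum_le_sum fun n _ => ?_
          rcases rU_eq_one_or δ X B n with ⟨h5, h6⟩ | h5
          · rw [if_pos h5, h6, mul_one]
          · rw [h5, mul_zero]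
            split_ifs
            · exact hM₀0.le
            · exact le_rfl
      _ = _ := by
          rw [← sum_filter, sum_const, nsmul_eq_mul, mul_comm, hΩ₁, filter_filter]
          congr 3
          ext n
          simp only [mem_filter]
          tauto
  calc 1 / (K * M₀) * (κ * Om δ X K) ≤ 1 / (K * M₀) * A := by gcongr
    _ ≤ 1 / (K * M₀) * (K * (M₀ * _)) := by
        refine mul_le_mul_of_nonneg_left (e5.trans ?_) (by positivity)
        exact mul_le_mul_of_nonneg_left e6 hK0.le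
    _ = _ := by field_simp

end Pool.Agent.Run7.h304.MC

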