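import Pool.Agent.Run7.h994.MC.Stm
import Pool.Agent.Run7.h462.KT.Bas

/-!
# Project MC (helper994), piece RUB (helper304): upper bound for rough values

Adapted from `Pool/Agent/Run7/h824/KT/UPK.lean` (helper824).
-/

set_option autoImplicit false

namespace Pool.Agent.Run7.h304.MC

open Finset Filter Topology Polynomial
open Pool.Agent.H373R2.T7 (pz Vz mem_pz Vz_pos)
open Pool.Agent.TH204.WR (rho flp prod_nonneg')
open Run7.h462.KT (Q rk gk eval_Q natDegree_Q_le dvd_Q Vz_gk)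
open Run7.h994.MC (Rk S_RUB)

theorem dvd_of_rho' (F : ℤ[X]) (p : ℕ) (hp : 0 < p) (h : p ≤ rho F 0 p) (n : ℤ) : (p : ℤ) ∣ F.eval n := by
  have h1 : ((range p).filter (fun b : ℕ => (p : ℤ) ∣ F.eval (b : ℤ) + 0)) = range p := by
    refine eq_of_subset_of_card_le (filter_subset _ _) ?_
    rw [card_range]
    exact h
  have hp0 : (0 : ℤ) < p := by exact_mod_cast hp
  have h2 : (n % p).toNat ∈ range p := by
    rw [mem_range]
    have := Int.emod_lt_of_pos n hp0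
    have := Int.emod_nonneg n hp0.ne'
    omega
  rw [← h1, mem_filter] at h2
  have h3 := h2.2
  rw [Int.toNat_of_nonneg (Int.emod_nonneg n hp0.ne')] at h3
  have h4 : (p : ℤ) ∣ F.eval n - F.eval (n % p) := by
    refine dvd_trans ?_ (sub_dvd_eval_sub n (n % p) F)
    exact Int.dvd_self_sub_emod
  have h5 := dvd_add h4 h3
  have e : F.eval n - F.eval (n % p) + (F.eval (n % p) + 0) = F.eval n := by ring
  rwa [e] at h5

/-- MC-RUB -/
theorem RUB (F : ℤ[X]) (k : ℕ) : S_RUB F k := by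
  classical
  intro ρ hρ0 hρ1
  obtain ⟨C1, y0, hC1, hy0, H⟩ := flp (k * F.natDegree + 1) (by omega)
  obtain ⟨D, hD⟩ : ∃ D : ℕ, D = 10 * C1 ^ 2 + ⌈1 / ρ⌉₊ := ⟨_, rfl⟩
  have hD10 : 10 ≤ D := by
    have := Nat.one_le_pow 2 C1 (by omega)
    omega
  have hDr : (10 : ℝ) ≤ D := by exact_mod_cast hD10
  have hD0 : (0 : ℝ) < D := by linarith
  have hDρ : 1 / (D : ℝ) ≤ ρ := by
    rw [div_le_iff₀ hD0]
    have h1 : 1 / ρ ≤ D := (Nat.le_ceil _).trans (by rw [hD]; push_cast; nlinarith [sq_nonneg (C1 : ℝ)])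
    rw [div_le_iff₀ hρ0] at h1
    linarith
  have hlim : Tendsto (fun N : ℕ => (N : ℝ) ^ (1 / (2 * (D : ℝ)))) atTop atTop :=
    (tendsto_rpow_atTop (by positivity)).comp (tendsto_natCast_atTop_atTop (R := ℝ))
  obtain ⟨N₁, hN₁⟩ := eventually_atTop.1 (hlim.eventually_ge_atTop ((y0 : ℝ) + 2))
  refine ⟨3, 1 / (2 * D), by norm_num, by positivity, ?_, N₁ + 1, ?_⟩
  · refine le_trans ?_ hDρ
    exact one_div_le_one_div_of_le hD0 (by linarith)
  intro N hN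
  have hN1 : 1 ≤ N := by omega
  have hNr : (1 : ℝ) ≤ N := by exact_mod_cast hN1
  have hN0 : (0 : ℝ) < N := by linarith
  set r : ℝ := (N : ℝ) ^ (1 / (2 * (D : ℝ))) with hr
  have hr2 : (y0 : ℝ) + 2 ≤ r := hN₁ N (by omega)
  have hy0r : (0 : ℝ) ≤ y0 := Nat.cast_nonneg _
  have hrr : r * r = (N : ℝ) ^ (1 / (D : ℝ)) := by
    rw [hr, ← Real.rpow_add hN0]
    congr 1
    field_simp
    ring
  set z : ℕ := ⌊r * r⌋₊ with hz
  have hz1 : (z : ℝ) ≤ r * r := Nat.floor_le (by positivity)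
  have hz2 : r * r - 1 < z := Nat.sub_one_lt_floor _
  have hrz : r ≤ z := by nlinarith
  have hzy : y0 ≤ z := by
    have : (y0 : ℝ) ≤ z := by linarith
    exact_mod_cast this
  have hzD : (z : ℝ) ≤ (N : ℝ) ^ (1 / (D : ℝ)) := by rw [← hrr]; exact hz1
  have hz10 : (z : ℝ) ≤ (N : ℝ) ^ ρ :=
    hzD.trans (Real.rpow_le_rpow_of_exponent_le hNr hDρ)
  refine ⟨z, by omega, hrz, hz10, fun a A₀ => ?_⟩
  have hzc : z ^ (C1 * C1) ≤ N := by
    have h1 : (z : ℝ) ^ (C1 * C1) ≤ N := by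
      calc (z : ℝ) ^ (C1 * C1) ≤ ((N : ℝ) ^ (1 / (D : ℝ))) ^ (C1 * C1) := by gcongr
        _ = (N : ℝ) ^ (1 / (D : ℝ) * ((C1 * C1 : ℕ) : ℝ)) := by
            rw [← Real.rpow_natCast, ← Real.rpow_mul hN0.le]
        _ ≤ (N : ℝ) ^ (1 : ℝ) := by
            refine Real.rpow_le_rpow_of_exponent_le hNr ?_
            rw [one_div, inv_mul_le_iff₀ hD0, hD]
            push_cast
            have h0 : (0 : ℝ) ≤ ((⌈1 / ρ⌉₊ : ℕ) : ℝ) := Nat.cast_nonneg _
            nlinarith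
        _ = N := Real.rpow_one _
    exact_mod_cast h1
  have hVhh : Vz z ^ k * gk F a z = ∏ p ∈ pz z, (1 - (rho (Q F a) 0 p : ℝ) / p) := Vz_gk F a z
  have hprod := prod_nonneg' (Q F a) 0 z
  rw [hVhh]
  by_cases hrho : ∀ p ∈ pz z, rho (Q F a) 0 p < p
  · have h := H (Q F a) 0 ((natDegree_Q_le F a).trans (Nat.le_succ _)) C1 le_rfl z hzy hrho N hzc A₀
    have h4 := (abs_le.1 h).2
    have h5 : (1 / 2 : ℝ) ^ C1 ≤ 1 := pow_le_one₀ (by norm_num) (by norm_num)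
    set V := ∏ p ∈ pz z, (1 - (rho (Q F a) 0 p : ℝ) / p) with hV
    have hNV : 0 ≤ (N : ℝ) * V := mul_nonneg hN0.le hprod
    have h6 : 2 * (1 / 2 : ℝ) ^ C1 * (N * V) ≤ 2 * 1 * (N * V) := by gcongr
    have hcount : (Rk F a A₀ z N : ℝ) ≤
        (#((Icc 1 N).filter (fun s : ℕ => ∀ p ∈ pz z, ¬ (p : ℤ) ∣ (Q F a).eval (A₀ + (s : ℤ)) + 0)) : ℝ) := by
      have h7 : Rk F a A₀ z N ≤
          #((Icc 1 N).filter (fun s : ℕ => ∀ p ∈ pz z, ¬ (p : ℤ) ∣ (Q F a).eval (A₀ + (s : ℤ)) + 0)) := by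
        unfold Rk
        refine card_le_card fun n hn => ?_
        rw [mem_filter] at hn ⊢
        refine ⟨hn.1, fun p hp hdv => ?_⟩
        have hp' := mem_pz.1 hp
        obtain ⟨i, hi⟩ := (dvd_Q F a hp'.2 _).1 hdv
        exact hn.2 i p hp'.2 hp'.1 hi
      exact_mod_cast h7
    have e2 : (3 : ℝ) * N * V = 3 * (N * V) := by ring
    rw [e2]
    linarith
  · push Not at hrho
    obtain ⟨p, hp, hrp⟩ := hrho
    have hp' := mem_pz.1 hp
    have hcount : Rk F a A₀ z N = 0 := by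
      unfold Rk
      rw [card_eq_zero, filter_eq_empty_iff]
      intro n _ hn
      have h6 := dvd_of_rho' (Q F a) p hp'.2.pos hrp (A₀ + n)
      rw [← add_zero ((Q F a).eval _)] at h6
      obtain ⟨i, hi⟩ := (dvd_Q F a hp'.2 _).1 h6
      exact hn i p hp'.2 hp'.1 hi
    rw [hcount, Nat.cast_zero]
    positivity

end Pool.Agent.Run7.h304.MC

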