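import Pool.Agent.Run7.h994.MC.Stm
import Pool.Agent.W335.HR.SM

/-!
# Project MC (helper994), piece SMT (helper304): second moments in a set `T`

Copy of the end of `Pool/Agent/W335/HR/SM.lean`.
-/

set_option autoImplicit false

open Finset

namespace Pool.Agent.Run7.h304.MC

open Pool.Agent.H361R2.PP Pool.Agent.W70.HR
open Pool.Agent.H410R2.AC (wt GG cfg term WW pos Inj coef)
open Pool.W335.HR (phi phi_some phi_none mem_cfg moment phi_disj uu uu_sum uu_fam)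
open Run7.h994.MC (EI EP S_MLT S_SMT)

variable {t : ℕ}

open Classical in
lemma corr' {δ : ℝ} {X : ℕ} {Θ : ℝ} {B U : Finset ℕ} (hBU : B ⊆ U)
    {S : Fin t → Finset (Finset ℕ)}
    {u : Fin t → ℝ} (hu : ∀ τ, 0 < u τ) (hθ : 2 * ∑ τ, u τ ≤ Θ)
    (hS : ∀ τ, Fam δ X (u τ) (S τ)) (h0 : ∀ τ, ∅ ∉ S τ)
    (hd : ∀ τ τ', τ ≠ τ' → Disjoint (S τ) (S τ')) (hG : ∀ τ, 1 ≤ GG (S τ))
    (hv : ∀ a ∈ U, (0 : ℝ) ≤ (fun _ : ℕ => (0 : ℝ)) a ∧
      Fam δ X ((fun _ : ℕ => (0 : ℝ)) a) ((fun _ : ℕ => ({∅} : Finset (Finset ℕ))) a))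
    (T : Finset ℕ) (w : ℕ → ℝ) (M e : ℝ)
    (H : ∀ (F F' : ℕ → Finset (Finset ℕ)) (u u' : ℕ → ℝ),
      (∀ a ∈ U, 0 ≤ u a ∧ Fam δ X (u a) (F a)) → (∀ a ∈ U, 0 ≤ u' a ∧ Fam δ X (u' a) (F' a)) →
      ∑ a ∈ U, (u a + u' a) ≤ Θ →
      ((∀ a ∈ U, F a = F' a) ∨ ∃ a ∈ U, Disjoint (F a) (F' a)) →
      |∑ n ∈ T, w n * ((∏ a ∈ U, FS (F a) a n) * ∏ a ∈ U, FS (F' a) a n) -
        (if ∀ a ∈ U, F a = F' a then M * ∏ a ∈ U, GG (F a) else 0)| ≤ e) :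
    ∀ σ ∈ cfg t B, ∀ σ' ∈ cfg t B,
      |∑ n ∈ T, w n * ((∏ a ∈ U, FS (phi S (fun _ => {∅}) σ a) a n) *
          ∏ a ∈ U, FS (phi S (fun _ => {∅}) σ' a) a n) -
        (if σ = σ' then M * ∏ a ∈ U, GG (phi S (fun _ => {∅}) σ a) else 0)| ≤ e := by
  intro σ hσ σ' hσ'
  have hψ : ∀ a ∈ B, (fun _ : ℕ => ({∅} : Finset (Finset ℕ))) a = {∅} := fun _ _ => rfl
  have hsum : ∑ a ∈ U, (uu u (fun _ => 0) σ a + uu u (fun _ => 0) σ' a) ≤ Θ := by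
    rw [Finset.sum_add_distrib]
    have h1 := uu_sum (U := U) hu (fun _ => 0) σ
    have h2 := uu_sum (U := U) hu (fun _ => 0) σ'
    simp only [Finset.sum_const_zero, zero_add] at h1 h2
    linarith
  have hf := uu_fam (B := B) hu hS hv hσ
  have hf' := uu_fam (B := B) hu hS hv hσ'
  by_cases h : σ = σ'
  · have h1 := H _ _ _ _ hf hf' hsum (Or.inl (fun a _ => by rw [h]))
    rw [if_pos (fun a _ => by rw [h])] at h1
    rw [if_pos h]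
    exact h1
  · obtain ⟨a, ha, h3, h4⟩ : ∃ a ∈ U, Disjoint (phi S (fun _ => {∅}) σ a) (phi S (fun _ => {∅}) σ' a) ∧
        phi S (fun _ => {∅}) σ a ≠ phi S (fun _ => {∅}) σ' a := by
      obtain ⟨τ, hτ⟩ : ∃ τ, σ τ ≠ σ' τ := by
        by_contra hcon
        push Not at hcon
        exact h (funext hcon)
      cases h1 : σ τ with
      | some a =>
        exact ⟨a, hBU ((mem_cfg hσ).1 _ _ h1), phi_disj h0 hd hG hψ hσ hσ' h1
          (fun h2 => hτ (h1.trans h2.symm))⟩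
      | none =>
        cases h2 : σ' τ with
        | some a =>
          have := phi_disj h0 hd hG hψ hσ' hσ h2 (by rw [h1]; simp)
          exact ⟨a, hBU ((mem_cfg hσ').1 _ _ h2), this.1.symm, this.2.symm⟩
        | none => exact absurd (h1.trans h2.symm) hτ
    have h1 := H _ _ _ _ hf hf' hsum (Or.inr ⟨a, ha, h3⟩)
    rw [if_neg (fun h5 => h4 (h5 a ha))] at h1
    rw [if_neg h]
    exact h1

theorem SMT : S_MLT → S_SMT := by
  classical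
  intro hML N m t u β Λ lv s huβ hβ1 hu hΛ hlv0 hlv1 hs
  have hN : (0 : ℝ) < ((N : ℝ) + 1) ^ (2 * t) := by positivity
  obtain ⟨K, A, δ₀, hδ₀, hML⟩ := hML N (m * (2 * t + 4)) Λ lv (lv / 2) (s / ((N : ℝ) + 1) ^ (2 * t)) hΛ
    (by positivity) (by linarith) hlv1 (div_pos hs hN)
  refine ⟨K, A, δ₀, hδ₀, fun δ hδ hδ' => ?_⟩
  obtain ⟨X₀, hX₀⟩ := hML δ hδ hδ'
  refine ⟨X₀, fun X hX b hb T κ hκ hEI S hS h0 hd hG γ hγ hγm U hU hUN B hBU c hc => ?_⟩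
  have key := hX₀ X hX b hb T κ hκ hEI U hU hUN
  have huτ : ∀ τ, 0 < u τ := fun τ => (huβ τ).1
  have hβτ : ∀ τ, 0 < β τ := fun τ => (huβ τ).2
  -- the error
  have herr : ∀ M : ℝ, 0 ≤ s / ((N : ℝ) + 1) ^ (2 * t) * δ ^ (m * (2 * t + 4)) * M →
      ((N : ℝ) + 1) ^ (2 * t) * (1 + γ) ^ (2 * t + 4) *
        (s / ((N : ℝ) + 1) ^ (2 * t) * δ ^ (m * (2 * t + 4)) * M) ≤ s * M := by
    intro M hM
    have hM' : 0 ≤ s * M := by
      have h1 : 0 < s / ((N : ℝ) + 1) ^ (2 * t) * δ ^ (m * (2 * t + 4)) := by positivity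
      have h2 : 0 ≤ M := by
        by_contra hcon
        push Not at hcon
        nlinarith [mul_neg_of_pos_of_neg h1 hcon]
      positivity
    have h1 : (1 + γ) ^ (2 * t + 4) * δ ^ (m * (2 * t + 4)) ≤ 1 := by
      have h2 : (1 + γ) ^ (2 * t + 4) ≤ ((1 / δ) ^ m) ^ (2 * t + 4) :=
        pow_le_pow_left₀ (by linarith) hγm _
      calc (1 + γ) ^ (2 * t + 4) * δ ^ (m * (2 * t + 4))
          ≤ ((1 / δ) ^ m) ^ (2 * t + 4) * δ ^ (m * (2 * t + 4)) := by gcongr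
        _ = 1 := by
            rw [← pow_mul, ← mul_pow, one_div, inv_mul_cancel₀ hδ.ne', one_pow]
    calc ((N : ℝ) + 1) ^ (2 * t) * (1 + γ) ^ (2 * t + 4) *
        (s / ((N : ℝ) + 1) ^ (2 * t) * δ ^ (m * (2 * t + 4)) * M)
        = (1 + γ) ^ (2 * t + 4) * δ ^ (m * (2 * t + 4)) * (s * M) := by
          field_simp
      _ ≤ 1 * (s * M) := by gcongr
      _ = s * M := one_mul _
  have hF1 : ∀ n a, FS {∅} a n = 1 := by
    intro n a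
    unfold FS wt
    simp
  have hG1 : GG {∅} = 1 := by
    unfold GG wt
    simp
  have hFam0 : Fam δ X 0 {∅} := by
    intro R hR
    rw [Finset.mem_singleton] at hR
    subst hR
    simp
  -- the general statement
  have gen : ∀ (T : Finset ℕ) (M : ℝ),
      (∀ (F F' : ℕ → Finset (Finset ℕ)) (u u' : ℕ → ℝ),
      (∀ a ∈ U, 0 ≤ u a ∧ Fam δ X (u a) (F a)) → (∀ a ∈ U, 0 ≤ u' a ∧ Fam δ X (u' a) (F' a)) →
      ∑ a ∈ U, (u a + u' a) ≤ lv - lv / 2 →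
      ((∀ a ∈ U, F a = F' a) ∨ ∃ a ∈ U, Disjoint (F a) (F' a)) →
      |∑ n ∈ T, rU δ X U n * ((∏ a ∈ U, FS (F a) a n) * ∏ a ∈ U, FS (F' a) a n) -
        (if ∀ a ∈ U, F a = F' a then M * ∏ a ∈ U, GG (F a) else 0)| ≤
          s / ((N : ℝ) + 1) ^ (2 * t) * δ ^ (m * (2 * t + 4)) * M) →
      |∑ n ∈ T, rU δ X U n * WW B c (xh γ β S n) ^ 2 -
        M * ∑ σ ∈ cfg t B, c σ ^ 2 * term (qh γ β S) σ| ≤ s * M := by
    intro T M H
    have hv : ∀ a ∈ U, (0 : ℝ) ≤ (fun _ : ℕ => (0 : ℝ)) a ∧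
        Fam δ X ((fun _ : ℕ => (0 : ℝ)) a) ((fun _ : ℕ => ({∅} : Finset (Finset ℕ))) a) :=
      fun _ _ => ⟨le_rfl, hFam0⟩
    have h1 := corr' (Θ := lv - lv / 2) hBU huτ (by linarith) hS h0 hd hG hv T (rU δ X U) M _ H
    have h2 := moment hBU hUN hG hβτ hβ1 hγ hc (fun _ _ => rfl) T (rU δ X U) M _ h1
    have h4 : 0 ≤ s / ((N : ℝ) + 1) ^ (2 * t) * δ ^ (m * (2 * t + 4)) * M := by
      have h3 : (fun _ => none : Fin t → Option ℕ) ∈ cfg t B := by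
        unfold Pool.Agent.H410R2.AC.cfg
        rw [Finset.mem_filter, Fintype.mem_piFinset]
        exact ⟨fun τ => by simp, fun τ τ' a h => by simp at h⟩
      exact (abs_nonneg _).trans (h1 _ h3 _ h3)
    have h5 := h2.trans (herr M h4)
    simp only [hF1, hG1, Finset.prod_const_one, one_mul] at h5
    exact h5
  refine ⟨?_, fun a₀ ha₀ hEP => ?_⟩
  · exact gen _ (κ * Om δ X U.card) (fun F F' u u' a1 a2 a3 a4 => (key F F' u u' a1 a2 a3 a4).1)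
  · exact gen _ (κ * OmP δ X U.card) (fun F F' u u' a1 a2 a3 a4 => (key F F' u u' a1 a2 a3 a4).2 a₀ ha₀ hEP)

end Pool.Agent.Run7.h304.MC

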